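import Pool.Agent.Helper17_NAS.Cube
import Pool.Agent.Helper22_LTG.Box

/-!
# Row MAJ: the dual form of the lower bound, with a small smooth part

From the lower bound by the Moreau form on the torus: for `f = 0` off `B`, `φ = 0` off `B2 ⊆ B`,
`2 ∑ f φ ≤ Q f + ∑_(B2) p_x φ_x² + S0 (∑ |φ|)²` with `p_x = 1 / al_x + 2 C 4^J / b0` and
`S0 = (2 C / b0) 2^(-(d-2) J) + 8 / (m 2^(kd)) + 32 C 4^k / (b0 2^(kd))`. Everything happens in the cube
`Box a (2^k) ⊇ B`, in which at least a quarter of the sites is off `B` and has `al ≥ m`.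
-/

set_option autoImplicit false

open scoped BigOperators

noncomputable section

namespace Pool.Agent.MAJ

open Pool.Agent.LTG
open Pool.Agent.NAS (cu gr gi av CS sob hls mem_cu card_cu)

variable {d M : ℕ} [NeZero M]

theorem sum_cu (a : Tor d M) {L : ℕ} (hL : L ≤ M) (φ : Tor d M → ℝ) :
    ∑ x, (if Box a L x then φ x else 0) = ∑ u ∈ cu d L, φ (pt a u) := by
  rw [← Finset.sum_filter]
  symm
  refine Finset.sum_bij' (fun u _ => pt a u) (fun x _ => off a x) ?_ ?_ ?_ ?_ ?_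
  · intro u hu
    rw [mem_cu] at hu
    rw [Finset.mem_filter]
    refine ⟨Finset.mem_univ _, fun i => ?_⟩
    rw [off_pt a u i (lt_of_lt_of_le (hu i) hL)]
    exact hu i
  · intro x hx
    rw [mem_cu]
    exact (Finset.mem_filter.mp hx).2
  · intro u hu
    rw [mem_cu] at hu
    funext i
    exact off_pt a u i (lt_of_lt_of_le (hu i) hL)
  · intro x _
    exact pt_off a x
  · intro u _
    rfl

/-- a sum over a subset of the box -/
theorem sum_sub (a : Tor d M) {L : ℕ} (hL : L ≤ M) (φ : Tor d M → ℝ)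
    (h0 : ∀ x, ¬ Box a L x → φ x = 0) : ∑ x, φ x = ∑ u ∈ cu d L, φ (pt a u) := by
  rw [← sum_cu a hL]
  refine Finset.sum_congr rfl fun x _ => ?_
  by_cases h : Box a L x
  · rw [if_pos h]
  · rw [if_neg h, h0 x h]

/-- the energy of the bonds in the cube -/
theorem gr_le (a : Tor d M) {L : ℕ} (hL : L ≤ M) (h : Tor d M → ℝ) :
    gr d L (fun u => h (pt a u)) ≤ bon sT tT (cutE sT tT (Box a L) (fun _ => 1)) h := by
  unfold bon gr
  rw [Fintype.sum_prod_type]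
  refine Finset.sum_le_sum fun k _ => ?_
  have h1 : gi d L k (fun u : Fin d → ℕ => h (pt a u)) = ∑ x, (if Box a L x then
      (if off a x k + 1 < L then (h (x + Pi.single k 1) - h x) ^ 2 else 0) else 0) := by
    rw [sum_cu a hL]
    unfold gi
    refine Finset.sum_congr rfl fun u hu => ?_
    rw [mem_cu] at hu
    rw [off_pt a u k (lt_of_lt_of_le (hu k) hL)]
    simp only [pt_add]
  rw [h1]
  refine Finset.sum_le_sum fun x _ => ?_
  by_cases hb : Box a L x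
  · rw [if_pos hb]
    by_cases hk : off a x k + 1 < L
    · rw [if_pos hk]
      have hb2 : Box a L (x + Pi.single k 1) := by
        intro i
        rw [off_add]
        by_cases hi : i = k
        · rw [if_pos hi]
          split
          · exact hk
          · omega
        · rw [if_neg hi]; exact hb i
      have : cutE sT tT (Box a L) (fun _ => 1) (k, x) = 1 := by
        unfold cutE
        rw [if_pos ⟨hb, hb2⟩]
      rw [this, one_mul]
      exact le_rfl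
    · rw [if_neg hk]
      unfold cutE
      split <;> positivity
  · rw [if_neg hb]
    unfold cutE
    split <;> positivity

/-- the constant in front of the square of the `ℓ¹` norm -/
def S0 (d k J : ℕ) (b0 m : ℝ) : ℝ :=
  2 * CS d / b0 * ((1 / 2 : ℝ) ^ (d - 2)) ^ J + 8 / (m * ((2 : ℝ) ^ k) ^ d) +
    32 * CS d * 4 ^ k / (b0 * ((2 : ℝ) ^ k) ^ d)

theorem CS_pos (hd : 3 ≤ d) : 0 < CS d := by
  unfold CS
  have : (0 : ℝ) < d := by exact_mod_cast (by omega : 0 < d)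
  positivity

/-- MAJ -/
theorem maj (hd : 3 ≤ d) (a : Tor d M) (k J : ℕ) (hk : 2 ^ k ≤ M) {Q : (Tor d M → ℝ) → ℝ}
    {al : Tor d M → ℝ} {be : Bd d M → ℝ} (hQ : LB sT tT Q al be) (hal : ∀ x, 0 ≤ al x)
    (hbe0 : ∀ e, 0 ≤ be e) {b0 m : ℝ} (hb0 : 0 < b0) (hm : 0 < m)
    (hbe : ∀ e, Box a (2 ^ k) (sT e) → Box a (2 ^ k) (tT e) → b0 ≤ be e)
    {B B2 Z : Finset (Tor d M)} (hB : ∀ x ∈ B, Box a (2 ^ k) x) (hB2 : B2 ⊆ B)
    (hB2a : ∀ x ∈ B2, 0 < al x)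
    (hZ : ∀ x ∈ Z, Box a (2 ^ k) x ∧ x ∉ B ∧ m ≤ al x)
    (hZc : ((2 : ℝ) ^ k) ^ d ≤ 4 * Z.card) (f φ : Tor d M → ℝ)
    (hf : ∀ x, x ∉ B → f x = 0) (hφ : ∀ x, x ∉ B2 → φ x = 0) :
    2 * ∑ x, f x * φ x ≤ Q f + ∑ x ∈ B2, φ x ^ 2 / al x +
      2 * CS d * 4 ^ J / b0 * ∑ x, φ x ^ 2 + S0 d k J b0 m * (∑ x, |φ x|) ^ 2 := by
  have hCS := CS_pos hd
  obtain ⟨h, hh⟩ := hQ f
  set L : ℕ := 2 ^ k with hL
  set H : (Fin d → ℕ) → ℝ := fun u => h (pt a u) with hH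
  set hm' : ℝ := av k H 0 with hhm
  set g : ℝ := gr d L H with hg
  have hg0 : 0 ≤ g := Pool.Agent.NAS.gr_nonneg _ _
  have hφB : ∀ x, ¬ Box a L x → φ x = 0 := fun x hx =>
    hφ x fun hx2 => hx (hB x (hB2 hx2))
  -- the volume
  have hvol : 0 < ((2 : ℝ) ^ k) ^ d := by positivity
  have hZ0 : (0 : ℝ) < Z.card := by linarith
  -- (1) the white part
  have e1 : ∑ x, f x * φ x = ∑ x, (f x - h x) * φ x + ∑ x, φ x * (h x - hm') +
      hm' * ∑ x, φ x := by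
    rw [Finset.mul_sum, ← Finset.sum_add_distrib, ← Finset.sum_add_distrib]
    refine Finset.sum_congr rfl fun x _ => ?_
    ring
  have w1 : 2 * ∑ x, (f x - h x) * φ x ≤ ∑ x ∈ B2, al x * (f x - h x) ^ 2 +
      ∑ x ∈ B2, φ x ^ 2 / al x := by
    rw [← Finset.sum_subset (Finset.subset_univ B2)
      (fun x _ hx => by rw [hφ x hx, mul_zero]), Finset.mul_sum, ← Finset.sum_add_distrib]
    refine Finset.sum_le_sum fun x hx => ?_
    have h1 := hB2a x hx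
    have h2 : 0 ≤ (al x * (f x - h x) - φ x) ^ 2 / al x := by positivity
    have h3 : (al x * (f x - h x) - φ x) ^ 2 / al x =
        al x * (f x - h x) ^ 2 - 2 * ((f x - h x) * φ x) + φ x ^ 2 / al x := by
      field_simp
      ring
    linarith
  -- (2) the fluctuation of `h`
  have e2 : ∑ x, φ x * (h x - hm') = ∑ u ∈ cu d L, φ (pt a u) * (H u - hm') :=
    sum_sub a hk _ fun x hx => by rw [hφB x hx, zero_mul]
  have e3 : ∑ x, φ x ^ 2 = ∑ u ∈ cu d L, φ (pt a u) ^ 2 :=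
    sum_sub a hk _ fun x hx => by rw [hφB x hx]; norm_num
  have e4 : ∑ x, |φ x| = ∑ u ∈ cu d L, |φ (pt a u)| :=
    sum_sub a hk _ fun x hx => by rw [hφB x hx, abs_zero]
  have w2 : 2 * ∑ x, φ x * (h x - hm') ≤ b0 / 2 * g + 2 / b0 * (CS d * (4 ^ J * ∑ x, φ x ^ 2 +
      ((1 / 2 : ℝ) ^ (d - 2)) ^ J * (∑ x, |φ x|) ^ 2)) := by
    have h1 := hls hd k J (fun u => φ (pt a u)) H
    rw [← e2, ← e3, ← e4] at h1
    set X := ∑ x, φ x * (h x - hm')
    set Y := CS d * (4 ^ J * ∑ x, φ x ^ 2 + ((1 / 2 : ℝ) ^ (d - 2)) ^ J * (∑ x, |φ x|) ^ 2) with hY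
    have hY0 : 0 ≤ Y := by
      have : 0 ≤ ∑ x, φ x ^ 2 := Finset.sum_nonneg fun _ _ => sq_nonneg _
      positivity
    have h2 : (2 * X) ^ 2 ≤ (b0 / 2 * g + 2 / b0 * Y) ^ 2 := by
      have h3 : 4 * (Y * g) ≤ (b0 / 2 * g + 2 / b0 * Y) ^ 2 := by
        have h4 : (b0 / 2 * g + 2 / b0 * Y) ^ 2 - 4 * (Y * g) = (b0 / 2 * g - 2 / b0 * Y) ^ 2 := by
          field_simp
          ring
        nlinarith [sq_nonneg (b0 / 2 * g - 2 / b0 * Y)]
      calc (2 * X) ^ 2 = 4 * X ^ 2 := by ring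
        _ ≤ 4 * (Y * g) := by linarith
        _ ≤ _ := h3
    exact (abs_le_of_sq_le_sq' h2 (by positivity)).2
  -- (3) the mean of `h`
  have pz : ∑ u ∈ cu d L, (H u - hm') ^ 2 ≤ 2 * CS d * 4 ^ k * g := by
    have h1 := sob hd k k (fun _ => 1) H 1 (((2 : ℝ) ^ k) ^ d) (fun _ _ => zero_le_one)
      (fun _ _ => le_rfl) (by
        rw [Finset.sum_const, nsmul_eq_mul, mul_one, card_cu]
        push_cast
        exact le_rfl)
    simp only [one_mul] at h1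
    have h2 : (((1 / 2 : ℝ) ^ (d - 2)) ^ k * ((2 : ℝ) ^ k) ^ d) = 4 ^ k := by
      obtain ⟨e, rfl⟩ : ∃ e, d = e + 2 := ⟨d - 2, by omega⟩
      have h3 : e + 2 - 2 = e := by omega
      rw [h3, ← pow_mul, ← pow_mul, mul_comm e k, mul_comm k (e + 2)]
      have h4 : (4 : ℝ) = 2 ^ 2 := by norm_num
      rw [h4, ← pow_mul, one_div, inv_pow, ← one_div, one_div_mul_eq_div, div_eq_iff (by positivity),
        ← pow_add]
      congr 1
      ring
    rw [h2] at h1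
    refine h1.trans (le_of_eq ?_)
    ring
  set P : ℝ := ∑ x ∈ Z, al x * h x ^ 2 with hP
  have hP0 : 0 ≤ P := Finset.sum_nonneg fun x _ => mul_nonneg (hal x) (sq_nonneg _)
  have w3a : hm' ^ 2 * Z.card ≤ 2 / m * P + 4 * CS d * 4 ^ k * g := by
    have h1 : ∀ x ∈ Z, hm' ^ 2 ≤ 2 / m * (al x * h x ^ 2) + 2 * (h x - hm') ^ 2 := by
      intro x hx
      obtain ⟨-, -, h3⟩ := hZ x hx
      have h4 : h x ^ 2 ≤ 1 / m * (al x * h x ^ 2) := by
        have : m * h x ^ 2 ≤ al x * h x ^ 2 := mul_le_mul_of_nonneg_right h3 (sq_nonneg _)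
        rw [one_div, le_inv_mul_iff₀ hm]
        exact this
      have h5 : 2 / m * (al x * h x ^ 2) = 2 * (1 / m * (al x * h x ^ 2)) := by ring
      rw [h5]
      nlinarith [sq_nonneg (h x + (h x - hm'))]
    have h2 := Finset.sum_le_sum h1
    rw [Finset.sum_const, nsmul_eq_mul, Finset.sum_add_distrib, ← Finset.mul_sum,
      ← Finset.mul_sum] at h2
    have h3 : ∑ x ∈ Z, (h x - hm') ^ 2 ≤ ∑ u ∈ cu d L, (H u - hm') ^ 2 := by
      rw [hH, ← sum_cu a hk (fun x => (h x - hm') ^ 2), ← Finset.sum_filter]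
      refine Finset.sum_le_sum_of_subset_of_nonneg (fun x hx => ?_) fun x _ _ => sq_nonneg _
      rw [Finset.mem_filter]
      exact ⟨Finset.mem_univ _, (hZ x hx).1⟩
    rw [mul_comm]
    refine h2.trans ?_
    have h4 := h3.trans pz
    linarith
  set c' : ℝ := 2 / (m * Z.card) + 8 * CS d * 4 ^ k / (b0 * Z.card) with hc'
  have hc'0 : 0 < c' := by positivity
  have w3b : hm' ^ 2 ≤ c' * (P + b0 / 2 * g) := by
    have h1 : hm' ^ 2 ≤ (2 / m * P + 4 * CS d * 4 ^ k * g) / Z.card := by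
      rw [le_div_iff₀ hZ0]; exact w3a
    refine h1.trans ?_
    have h2 : c' * (P + b0 / 2 * g) - (2 / m * P + 4 * CS d * 4 ^ k * g) / Z.card =
        8 * CS d * 4 ^ k / (b0 * Z.card) * P + 2 / (m * Z.card) * (b0 / 2 * g) := by
      rw [hc']
      field_simp
      ring
    have h3 : 0 ≤ 8 * CS d * 4 ^ k / (b0 * Z.card) * P + 2 / (m * Z.card) * (b0 / 2 * g) := by
      positivity
    linarith
  have w3 : 2 * (hm' * ∑ x, φ x) ≤ P + b0 / 2 * g + c' * (∑ x, |φ x|) ^ 2 := by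
    have h1 : 2 * (hm' * ∑ x, φ x) ≤ hm' ^ 2 / c' + c' * (∑ x, φ x) ^ 2 := by
      have h2 : 0 ≤ (hm' - c' * ∑ x, φ x) ^ 2 / c' := by positivity
      have h3 : (hm' - c' * ∑ x, φ x) ^ 2 / c' =
          hm' ^ 2 / c' - 2 * (hm' * ∑ x, φ x) + c' * (∑ x, φ x) ^ 2 := by
        field_simp
        ring
      linarith
    have h2 : hm' ^ 2 / c' ≤ P + b0 / 2 * g := by
      rw [div_le_iff₀ hc'0, mul_comm]
      exact w3b
    have h3 : (∑ x, φ x) ^ 2 ≤ (∑ x, |φ x|) ^ 2 := by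
      rw [← sq_abs]
      exact pow_le_pow_left₀ (abs_nonneg _) (Finset.abs_sum_le_sum_abs _ _) 2
    have h4 := mul_le_mul_of_nonneg_left h3 hc'0.le
    linarith
  -- the form
  have hmor : ∑ x ∈ B2, al x * (f x - h x) ^ 2 + P + b0 * g ≤ Q f := by
    refine le_trans ?_ hh
    unfold mor
    refine add_le_add ?_ ?_
    · have h1 : P = ∑ x ∈ Z, al x * (f x - h x) ^ 2 := by
        refine Finset.sum_congr rfl fun x hx => ?_
        rw [hf x (hZ x hx).2.1]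
        ring
      have hdis : Disjoint B2 Z := by
        rw [Finset.disjoint_left]
        intro x hx hx'
        exact (hZ x hx').2.1 (hB2 hx)
      rw [h1, ← Finset.sum_union hdis]
      exact Finset.sum_le_sum_of_subset_of_nonneg (Finset.subset_univ _) fun x _ _ =>
        mul_nonneg (hal x) (sq_nonneg _)
    · have h1 := mul_le_mul_of_nonneg_left (gr_le a hk h) hb0.le
      refine h1.trans ?_
      unfold bon
      rw [Finset.mul_sum]
      refine Finset.sum_le_sum fun e _ => ?_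
      rw [← mul_assoc]
      refine mul_le_mul_of_nonneg_right ?_ (sq_nonneg _)
      unfold cutE
      split_ifs with h2
      · rw [mul_one]; exact hbe e h2.1 h2.2
      · rw [mul_zero]; exact hbe0 e
  have hc'le : c' ≤ 8 / (m * ((2 : ℝ) ^ k) ^ d) + 32 * CS d * 4 ^ k / (b0 * ((2 : ℝ) ^ k) ^ d) := by
    have h1 : 2 / (m * (Z.card : ℝ)) ≤ 8 / (m * ((2 : ℝ) ^ k) ^ d) := by
      rw [div_le_div_iff₀ (by positivity) (by positivity)]
      nlinarith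
    have h2 : 8 * CS d * 4 ^ k / (b0 * (Z.card : ℝ)) ≤
        32 * CS d * 4 ^ k / (b0 * ((2 : ℝ) ^ k) ^ d) := by
      rw [div_le_div_iff₀ (by positivity) (by positivity)]
      have h3 : 0 ≤ 8 * CS d * 4 ^ k * b0 := by positivity
      nlinarith [mul_le_mul_of_nonneg_left hZc h3]
    exact add_le_add h1 h2
  have hsq : 0 ≤ (∑ x, |φ x|) ^ 2 := sq_nonneg _
  have hfin := mul_le_mul_of_nonneg_right hc'le hsq
  have e5 : S0 d k J b0 m * (∑ x, |φ x|) ^ 2 = 2 / b0 * (CS d * (((1 / 2 : ℝ) ^ (d - 2)) ^ J *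
      (∑ x, |φ x|) ^ 2)) + (8 / (m * ((2 : ℝ) ^ k) ^ d) +
        32 * CS d * 4 ^ k / (b0 * ((2 : ℝ) ^ k) ^ d)) * (∑ x, |φ x|) ^ 2 := by
    unfold S0
    ring
  have e6 : 2 / b0 * (CS d * (4 ^ J * ∑ x, φ x ^ 2 +
      ((1 / 2 : ℝ) ^ (d - 2)) ^ J * (∑ x, |φ x|) ^ 2)) = 2 * CS d * 4 ^ J / b0 * ∑ x, φ x ^ 2 +
      2 / b0 * (CS d * (((1 / 2 : ℝ) ^ (d - 2)) ^ J * (∑ x, |φ x|) ^ 2)) := by
    ring
  rw [e6] at w2
  rw [e1, e5]
  linarith

/-- MAJ with one weight `p` -/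
theorem maj' (hd : 3 ≤ d) (a : Tor d M) (k J : ℕ) (hk : 2 ^ k ≤ M) {Q : (Tor d M → ℝ) → ℝ}
    {al : Tor d M → ℝ} {be : Bd d M → ℝ} (hQ : LB sT tT Q al be) (hal : ∀ x, 0 ≤ al x)
    (hbe0 : ∀ e, 0 ≤ be e) {b0 m : ℝ} (hb0 : 0 < b0) (hm : 0 < m)
    (hbe : ∀ e, Box a (2 ^ k) (sT e) → Box a (2 ^ k) (tT e) → b0 ≤ be e)
    {B B2 Z : Finset (Tor d M)} (hB : ∀ x ∈ B, Box a (2 ^ k) x) (hB2 : B2 ⊆ B)
    (hB2a : ∀ x ∈ B2, 0 < al x)
    (hZ : ∀ x ∈ Z, Box a (2 ^ k) x ∧ x ∉ B ∧ m ≤ al x)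
    (hZc : ((2 : ℝ) ^ k) ^ d ≤ 4 * Z.card) {p : Tor d M → ℝ} {s0 : ℝ}
    (hp : ∀ x ∈ B2, 1 / al x + 2 * CS d * 4 ^ J / b0 ≤ p x) (hs0 : S0 d k J b0 m ≤ s0)
    (f φ : Tor d M → ℝ)
    (hf : ∀ x, x ∉ B → f x = 0) (hφ : ∀ x, x ∉ B2 → φ x = 0) :
    2 * ∑ x, f x * φ x - ∑ x ∈ B2, p x * φ x ^ 2 - s0 * (∑ x, |φ x|) ^ 2 ≤ Q f := by
  have h1 := maj hd a k J hk hQ hal hbe0 hb0 hm hbe hB hB2 hB2a hZ hZc f φ hf hφ
  have h2 : ∑ x ∈ B2, φ x ^ 2 / al x + 2 * CS d * 4 ^ J / b0 * ∑ x, φ x ^ 2 ≤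
      ∑ x ∈ B2, p x * φ x ^ 2 := by
    have e1 : ∑ x, φ x ^ 2 = ∑ x ∈ B2, φ x ^ 2 :=
      (Finset.sum_subset (Finset.subset_univ B2) fun x _ hx => by rw [hφ x hx]; norm_num).symm
    rw [e1, Finset.mul_sum, ← Finset.sum_add_distrib]
    refine Finset.sum_le_sum fun x hx => ?_
    have := mul_le_mul_of_nonneg_right (hp x hx) (sq_nonneg (φ x))
    calc φ x ^ 2 / al x + 2 * CS d * 4 ^ J / b0 * φ x ^ 2 =
        (1 / al x + 2 * CS d * 4 ^ J / b0) * φ x ^ 2 := by ring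
      _ ≤ _ := this
  have h3 := mul_le_mul_of_nonneg_right hs0 (sq_nonneg (∑ x, |φ x|))
  linarith

end Pool.Agent.MAJ
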