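import Pool.Agent.Helper67_MAJ.MAJ2
import Pool.Agent.Helper22_LTG.Fbk

/-!
# Row HSF: from the normal form `Fm` to the dual lower bounds of the block lemma
-/

set_option autoImplicit false

open scoped BigOperators

noncomputable section

namespace Pool.Agent.MAJ

open Pool.Agent.LTG
open Pool.Agent.NAS (CS)

variable {d M : ℕ} [NeZero M]

theorem wl_pos {A : Finset (Tor d M)} {w εl : Tor d M → ℝ} (hw : ∀ x ∈ A, 0 < w x)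
    (hel : ∀ x ∈ A, 0 ≤ εl x) : (∀ x, 0 ≤ wl A w εl x) ∧ ∀ x ∈ A, 0 < wl A w εl x := by
  have h1 : ∀ x ∈ A, 0 < wl A w εl x := by
    intro x hx
    unfold wl
    rw [if_pos hx]
    have := hel x hx
    have := hw x hx
    positivity
  refine ⟨fun x => ?_, h1⟩
  by_cases hx : x ∈ A
  · exact (h1 x hx).le
  · unfold wl
    rw [if_neg hx]

theorem wl_inv {A : Finset (Tor d M)} {w εl : Tor d M → ℝ} {x : Tor d M} (hx : x ∈ A) :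
    1 / wl A w εl x = (1 + εl x) / w x := by
  unfold wl
  rw [if_pos hx, one_div_div]

/-- HSF, young and old nodes: the constant `2` in the white part -/
theorem hsf1 (hd : 3 ≤ d) (a : Tor d M) (k J J' : ℕ) (hk : 2 ^ k ≤ M) {A : Finset (Tor d M)}
    {w εl εu : Tor d M → ℝ} {bl bu : Bd d M → ℝ} {Qf : (Tor d M → ℝ) → ℝ}
    (hF : Fm sT tT A w εl εu bl bu Qf) (hw : ∀ x ∈ A, 0 < w x) (hel : ∀ x ∈ A, 0 ≤ εl x)
    (hbl : ∀ e, 0 ≤ bl e) {b0 m : ℝ} (hb0 : 0 < b0) (hm : 0 < m)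
    (hbe : ∀ e, Box a (2 ^ k) (sT e) → Box a (2 ^ k) (tT e) → b0 ≤ bl e)
    {Q O Z : Finset (Tor d M)} (hQA : Q ⊆ A) (hQB : ∀ x ∈ Q, Box a (2 ^ k) x)
    (hZ : ∀ x ∈ Z, Box a (2 ^ k) x ∧ x ∉ Q ∧ x ∈ A ∧ m * (1 + εl x) ≤ w x)
    (hZc : ((2 : ℝ) ^ k) ^ d ≤ 4 * Z.card)
    (hp : ∀ x ∈ Q, x ∉ O → εl x + 4 * CS d * 4 ^ J / b0 * w x ≤ 1)
    (hp' : ∀ x ∈ Q, x ∈ O → εl x + 4 * CS d * 4 ^ J' / b0 * w x ≤ 1) {s1 s3 : ℝ}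
    (hs1 : S2 d k J b0 m ≤ s1) (hs3 : S2 d k J' b0 m ≤ s3) (f φ : Tor d M → ℝ)
    (hf : ∀ x, x ∉ Q → f x = 0) (hφ : ∀ x, x ∉ Q → φ x = 0) :
    2 * ∑ x, f x * φ x - 2 * ∑ x ∈ Q, φ x ^ 2 / w x - s1 * (∑ x ∈ Q \ O, |φ x|) ^ 2 -
      s3 * (∑ x ∈ Q ∩ O, |φ x|) ^ 2 ≤ Qf f := by
  obtain ⟨h1, h2⟩ := wl_pos hw hel
  have h3 := maj2' hd a k J J' hk hF.lb h1 hbl hb0 hm hbe hQB (le_refl Q)
    (fun x hx => h2 x (hQA hx))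
    (fun x hx => ⟨(hZ x hx).1, (hZ x hx).2.1, by
      unfold wl
      rw [if_pos (hZ x hx).2.2.1, le_div_iff₀ (by linarith [hel x (hZ x hx).2.2.1])]
      exact (hZ x hx).2.2.2⟩) hZc (p := fun x => 2 / w x) (s1 := s1) (s3 := s3) (O := O)
    (fun x hx hO => by
      have hw' := hw x (hQA hx)
      rw [wl_inv (hQA hx), div_add' _ _ _ hw'.ne', div_le_div_iff_of_pos_right hw']
      linarith [hp x hx hO])
    (fun x hx hO => by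
      have hw' := hw x (hQA hx)
      rw [wl_inv (hQA hx), div_add' _ _ _ hw'.ne', div_le_div_iff_of_pos_right hw']
      linarith [hp' x hx hO]) hs1 hs3 f φ hf hφ
  have h4 : ∑ x ∈ Q, 2 / w x * φ x ^ 2 = 2 * ∑ x ∈ Q, φ x ^ 2 / w x := by
    rw [Finset.mul_sum]
    exact Finset.sum_congr rfl fun x _ => by ring
  rw [h4] at h3
  exact h3

/-- HSF, running nodes: the sharp constant in the white part -/
theorem hsf2 (hd : 3 ≤ d) (a : Tor d M) (k J : ℕ) (hk : 2 ^ k ≤ M) {A : Finset (Tor d M)}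
    {w εl εu : Tor d M → ℝ} {bl bu : Bd d M → ℝ} {Qf : (Tor d M → ℝ) → ℝ}
    (hF : Fm sT tT A w εl εu bl bu Qf) (hw : ∀ x ∈ A, 0 < w x) (hel : ∀ x ∈ A, 0 ≤ εl x)
    (hbl : ∀ e, 0 ≤ bl e) {b0 m : ℝ} (hb0 : 0 < b0) (hm : 0 < m)
    (hbe : ∀ e, Box a (2 ^ k) (sT e) → Box a (2 ^ k) (tT e) → b0 ≤ bl e)
    {Q R Z : Finset (Tor d M)} (hQA : Q ⊆ A) (hQB : ∀ x ∈ Q, Box a (2 ^ k) x) (hR : R ⊆ Q)
    (hZ : ∀ x ∈ Z, Box a (2 ^ k) x ∧ x ∉ Q ∧ x ∈ A ∧ m * (1 + εl x) ≤ w x)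
    (hZc : ((2 : ℝ) ^ k) ^ d ≤ 4 * Z.card) {ε s2 : ℝ}
    (hp : ∀ x ∈ R, εl x + 2 * CS d * 4 ^ J / b0 * w x ≤ ε)
    (hs2 : S0 d k J b0 m ≤ s2) (f φ : Tor d M → ℝ)
    (hf : ∀ x, x ∉ Q → f x = 0) (hφ : ∀ x, x ∉ R → φ x = 0) :
    2 * ∑ x, f x * φ x - (1 + ε) * ∑ x ∈ R, φ x ^ 2 / w x - s2 * (∑ x, |φ x|) ^ 2 ≤ Qf f := by
  obtain ⟨h1, h2⟩ := wl_pos hw hel
  have h3 := maj' hd a k J hk hF.lb h1 hbl hb0 hm hbe hQB hR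
    (fun x hx => h2 x (hQA (hR hx)))
    (fun x hx => ⟨(hZ x hx).1, (hZ x hx).2.1, by
      unfold wl
      rw [if_pos (hZ x hx).2.2.1, le_div_iff₀ (by linarith [hel x (hZ x hx).2.2.1])]
      exact (hZ x hx).2.2.2⟩) hZc (p := fun x => (1 + ε) / w x) (s0 := s2)
    (fun x hx => by
      have hw' := hw x (hQA (hR hx))
      rw [wl_inv (hQA (hR hx)), div_add' _ _ _ hw'.ne', div_le_div_iff_of_pos_right hw']
      linarith [hp x hx]) hs2 f φ hf hφ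
  have h4 : ∑ x ∈ R, (1 + ε) / w x * φ x ^ 2 = (1 + ε) * ∑ x ∈ R, φ x ^ 2 / w x := by
    rw [Finset.mul_sum]
    exact Finset.sum_congr rfl fun x _ => by ring
  rw [h4] at h3
  exact h3

end Pool.Agent.MAJ
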