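import Pool.Agent.Helper67_MAJ.MAJ

/-!
# Row MAJ, two classes of sites

As `maj`, but the sites of `B2` are divided into young sites (level `J`, small constant `S2 J`) and old
sites `O` (level `J'`, constant `S2 J'`).
-/

set_option autoImplicit false

open scoped BigOperators

noncomputable section

namespace Pool.Agent.MAJ

open Pool.Agent.LTG
open Pool.Agent.NAS (cu gr gi av CS sob hls mem_cu card_cu)

variable {d M : ℕ} [NeZero M]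

/-- the constant in front of the square of the `ℓ¹` norm -/
def S2 (d k J : ℕ) (b0 m : ℝ) : ℝ :=
  4 * CS d / b0 * ((1 / 2 : ℝ) ^ (d - 2)) ^ J + 16 / (m * ((2 : ℝ) ^ k) ^ d) +
    64 * CS d * 4 ^ k / (b0 * ((2 : ℝ) ^ k) ^ d)

/-- the pairing with the fluctuation of `h` on the cube -/
theorem hls_box (hd : 3 ≤ d) (a : Tor d M) (k J : ℕ) (hk : 2 ^ k ≤ M) (h φ : Tor d M → ℝ)
    (hφB : ∀ x, ¬ Box a (2 ^ k) x → φ x = 0) {b0 : ℝ} (hb0 : 0 < b0) :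
    2 * ∑ x, φ x * (h x - av k (fun u => h (pt a u)) 0) ≤
      b0 / 4 * gr d (2 ^ k) (fun u => h (pt a u)) + 4 / b0 * (CS d * (4 ^ J * ∑ x, φ x ^ 2 +
        ((1 / 2 : ℝ) ^ (d - 2)) ^ J * (∑ x, |φ x|) ^ 2)) := by
  have hCS := CS_pos hd
  set L : ℕ := 2 ^ k with hL
  set H : (Fin d → ℕ) → ℝ := fun u => h (pt a u) with hH
  set hm' : ℝ := av k H 0 with hhm
  set g : ℝ := gr d L H with hg
  have hg0 : 0 ≤ g := Pool.Agent.NAS.gr_nonneg _ _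
  have e2 : ∑ x, φ x * (h x - hm') = ∑ u ∈ cu d L, φ (pt a u) * (H u - hm') :=
    sum_sub a hk _ fun x hx => by rw [hφB x hx, zero_mul]
  have e3 : ∑ x, φ x ^ 2 = ∑ u ∈ cu d L, φ (pt a u) ^ 2 :=
    sum_sub a hk _ fun x hx => by rw [hφB x hx]; norm_num
  have e4 : ∑ x, |φ x| = ∑ u ∈ cu d L, |φ (pt a u)| :=
    sum_sub a hk _ fun x hx => by rw [hφB x hx, abs_zero]
  have h1 := hls hd k J (fun u => φ (pt a u)) H
  rw [← e2, ← e3, ← e4] at h1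
  set X := ∑ x, φ x * (h x - hm')
  set Y := CS d * (4 ^ J * ∑ x, φ x ^ 2 + ((1 / 2 : ℝ) ^ (d - 2)) ^ J * (∑ x, |φ x|) ^ 2) with hY
  have hY0 : 0 ≤ Y := by
    have : 0 ≤ ∑ x, φ x ^ 2 := Finset.sum_nonneg fun _ _ => sq_nonneg _
    positivity
  have h2 : (2 * X) ^ 2 ≤ (b0 / 4 * g + 4 / b0 * Y) ^ 2 := by
    have h3 : 4 * (Y * g) ≤ (b0 / 4 * g + 4 / b0 * Y) ^ 2 := by
      have h4 : (b0 / 4 * g + 4 / b0 * Y) ^ 2 - 4 * (Y * g) = (b0 / 4 * g - 4 / b0 * Y) ^ 2 := by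
        field_simp
        ring
      nlinarith [sq_nonneg (b0 / 4 * g - 4 / b0 * Y)]
    calc (2 * X) ^ 2 = 4 * X ^ 2 := by ring
      _ ≤ 4 * (Y * g) := by linarith
      _ ≤ _ := h3
  exact (abs_le_of_sq_le_sq' h2 (by positivity)).2

/-- MAJ, two classes -/
theorem maj2 (hd : 3 ≤ d) (a : Tor d M) (k J J' : ℕ) (hk : 2 ^ k ≤ M) {Q : (Tor d M → ℝ) → ℝ}
    {al : Tor d M → ℝ} {be : Bd d M → ℝ} (hQ : LB sT tT Q al be) (hal : ∀ x, 0 ≤ al x)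
    (hbe0 : ∀ e, 0 ≤ be e) {b0 m : ℝ} (hb0 : 0 < b0) (hm : 0 < m)
    (hbe : ∀ e, Box a (2 ^ k) (sT e) → Box a (2 ^ k) (tT e) → b0 ≤ be e)
    {B B2 Z O : Finset (Tor d M)} (hB : ∀ x ∈ B, Box a (2 ^ k) x) (hB2 : B2 ⊆ B)
    (hB2a : ∀ x ∈ B2, 0 < al x)
    (hZ : ∀ x ∈ Z, Box a (2 ^ k) x ∧ x ∉ B ∧ m ≤ al x)
    (hZc : ((2 : ℝ) ^ k) ^ d ≤ 4 * Z.card) (f φ : Tor d M → ℝ)
    (hf : ∀ x, x ∉ B → f x = 0) (hφ : ∀ x, x ∉ B2 → φ x = 0) :
    2 * ∑ x, f x * φ x ≤ Q f + ∑ x ∈ B2, φ x ^ 2 / al x +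
      4 * CS d * 4 ^ J / b0 * ∑ x ∈ B2 \ O, φ x ^ 2 +
      4 * CS d * 4 ^ J' / b0 * ∑ x ∈ B2 ∩ O, φ x ^ 2 +
      S2 d k J b0 m * (∑ x ∈ B2 \ O, |φ x|) ^ 2 +
      S2 d k J' b0 m * (∑ x ∈ B2 ∩ O, |φ x|) ^ 2 := by
  have hCS := CS_pos hd
  obtain ⟨h, hh⟩ := hQ f
  set L : ℕ := 2 ^ k with hL
  set H : (Fin d → ℕ) → ℝ := fun u => h (pt a u) with hH
  set hm' : ℝ := av k H 0 with hhm
  set g : ℝ := gr d L H with hg
  have hg0 : 0 ≤ g := Pool.Agent.NAS.gr_nonneg _ _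
  have hφB : ∀ x, ¬ Box a L x → φ x = 0 := fun x hx =>
    hφ x fun hx2 => hx (hB x (hB2 hx2))
  -- the volume
  have hvol : 0 < ((2 : ℝ) ^ k) ^ d := by positivity
  have hZ0 : (0 : ℝ) < Z.card := by linarith
  -- (1) the white part
  have e1 : ∑ x, f x * φ x = ∑ x, (f x - h x) * φ x + ∑ x, φ x * (h x - hm') +
      hm' * ∑ x, φ x := by
    rw [Finset.mul_sum, ← Finset.sum_add_distrib, ← Finset.sum_add_distrib]
    refine Finset.sum_congr rfl fun x _ => ?_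
    ring
  have w1 : 2 * ∑ x, (f x - h x) * φ x ≤ ∑ x ∈ B2, al x * (f x - h x) ^ 2 +
      ∑ x ∈ B2, φ x ^ 2 / al x := by
    rw [← Finset.sum_subset (Finset.subset_univ B2)
      (fun x _ hx => by rw [hφ x hx, mul_zero]), Finset.mul_sum, ← Finset.sum_add_distrib]
    refine Finset.sum_le_sum fun x hx => ?_
    have h1 := hB2a x hx
    have h2 : 0 ≤ (al x * (f x - h x) - φ x) ^ 2 / al x := by positivity
    have h3 : (al x * (f x - h x) - φ x) ^ 2 / al x =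
        al x * (f x - h x) ^ 2 - 2 * ((f x - h x) * φ x) + φ x ^ 2 / al x := by
      field_simp
      ring
    linarith
  -- (2) the fluctuation of `h`
  have w2 : 2 * ∑ x, φ x * (h x - hm') ≤ b0 / 2 * g +
      4 / b0 * (CS d * (4 ^ J * ∑ x ∈ B2 \ O, φ x ^ 2 +
        ((1 / 2 : ℝ) ^ (d - 2)) ^ J * (∑ x ∈ B2 \ O, |φ x|) ^ 2)) +
      4 / b0 * (CS d * (4 ^ J' * ∑ x ∈ B2 ∩ O, φ x ^ 2 +
        ((1 / 2 : ℝ) ^ (d - 2)) ^ J' * (∑ x ∈ B2 ∩ O, |φ x|) ^ 2)) := by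
    obtain ⟨φ1, hφ1⟩ : ∃ φ1 : Tor d M → ℝ, φ1 = fun x => if x ∈ B2 \ O then φ x else 0 := ⟨_, rfl⟩
    obtain ⟨φ2, hφ2⟩ : ∃ φ2 : Tor d M → ℝ, φ2 = fun x => if x ∈ B2 ∩ O then φ x else 0 := ⟨_, rfl⟩
    have hs12 : ∀ x, φ x = φ1 x + φ2 x := by
      intro x
      simp only [hφ1, hφ2, Finset.mem_sdiff, Finset.mem_inter]
      by_cases h1 : x ∈ B2
      · by_cases h2 : x ∈ O
        · rw [if_neg (by tauto), if_pos ⟨h1, h2⟩, zero_add]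
        · rw [if_pos ⟨h1, h2⟩, if_neg (by tauto), add_zero]
      · rw [if_neg (by tauto), if_neg (by tauto), hφ x h1, add_zero]
    have hcut : ∀ (T : Finset (Tor d M)) (F : ℝ → ℝ), F 0 = 0 →
        ∑ x, F (if x ∈ T then φ x else 0) = ∑ x ∈ T, F (φ x) := by
      intro T F hF
      rw [← Finset.sum_subset (Finset.subset_univ T)]
      · exact Finset.sum_congr rfl fun x hx => by rw [if_pos hx]
      · intro x _ hx
        rw [if_neg hx, hF]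
    have q1 : ∑ x, φ1 x ^ 2 = ∑ x ∈ B2 \ O, φ x ^ 2 := by
      rw [hφ1]; exact hcut _ (fun t => t ^ 2) (by norm_num)
    have q2 : ∑ x, φ2 x ^ 2 = ∑ x ∈ B2 ∩ O, φ x ^ 2 := by
      rw [hφ2]; exact hcut _ (fun t => t ^ 2) (by norm_num)
    have q3 : ∑ x, |φ1 x| = ∑ x ∈ B2 \ O, |φ x| := by
      rw [hφ1]; exact hcut _ (fun t => |t|) (by norm_num)
    have q4 : ∑ x, |φ2 x| = ∑ x ∈ B2 ∩ O, |φ x| := by
      rw [hφ2]; exact hcut _ (fun t => |t|) (by norm_num)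
    have hB1 : ∀ x, ¬ Box a L x → φ1 x = 0 := by
      intro x hx
      rw [hφ1]
      dsimp only
      split_ifs
      · exact hφB x hx
      · rfl
    have hB22 : ∀ x, ¬ Box a L x → φ2 x = 0 := by
      intro x hx
      rw [hφ2]
      dsimp only
      split_ifs
      · exact hφB x hx
      · rfl
    have u1 := hls_box hd a k J hk h φ1 hB1 hb0
    have u2 := hls_box hd a k J' hk h φ2 hB22 hb0
    rw [q1, q3] at u1
    rw [q2, q4] at u2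
    have h1 : ∑ x, φ x * (h x - hm') = ∑ x, φ1 x * (h x - hm') + ∑ x, φ2 x * (h x - hm') := by
      rw [← Finset.sum_add_distrib]
      refine Finset.sum_congr rfl fun x _ => ?_
      rw [hs12 x]
      ring
    rw [h1, mul_add]
    have e : b0 / 2 * g = b0 / 4 * g + b0 / 4 * g := by ring
    linarith
  -- (3) the mean of `h`
  have pz : ∑ u ∈ cu d L, (H u - hm') ^ 2 ≤ 2 * CS d * 4 ^ k * g := by
    have h1 := sob hd k k (fun _ => 1) H 1 (((2 : ℝ) ^ k) ^ d) (fun _ _ => zero_le_one)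
      (fun _ _ => le_rfl) (by
        rw [Finset.sum_const, nsmul_eq_mul, mul_one, card_cu]
        push_cast
        exact le_rfl)
    simp only [one_mul] at h1
    have h2 : (((1 / 2 : ℝ) ^ (d - 2)) ^ k * ((2 : ℝ) ^ k) ^ d) = 4 ^ k := by
      obtain ⟨e, rfl⟩ : ∃ e, d = e + 2 := ⟨d - 2, by omega⟩
      have h3 : e + 2 - 2 = e := by omega
      rw [h3, ← pow_mul, ← pow_mul, mul_comm e k, mul_comm k (e + 2)]
      have h4 : (4 : ℝ) = 2 ^ 2 := by norm_num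
      rw [h4, ← pow_mul, one_div, inv_pow, ← one_div, one_div_mul_eq_div, div_eq_iff (by positivity),
        ← pow_add]
      congr 1
      ring
    rw [h2] at h1
    refine h1.trans (le_of_eq ?_)
    ring
  set P : ℝ := ∑ x ∈ Z, al x * h x ^ 2 with hP
  have hP0 : 0 ≤ P := Finset.sum_nonneg fun x _ => mul_nonneg (hal x) (sq_nonneg _)
  have w3a : hm' ^ 2 * Z.card ≤ 2 / m * P + 4 * CS d * 4 ^ k * g := by
    have h1 : ∀ x ∈ Z, hm' ^ 2 ≤ 2 / m * (al x * h x ^ 2) + 2 * (h x - hm') ^ 2 := by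
      intro x hx
      obtain ⟨-, -, h3⟩ := hZ x hx
      have h4 : h x ^ 2 ≤ 1 / m * (al x * h x ^ 2) := by
        have : m * h x ^ 2 ≤ al x * h x ^ 2 := mul_le_mul_of_nonneg_right h3 (sq_nonneg _)
        rw [one_div, le_inv_mul_iff₀ hm]
        exact this
      have h5 : 2 / m * (al x * h x ^ 2) = 2 * (1 / m * (al x * h x ^ 2)) := by ring
      rw [h5]
      nlinarith [sq_nonneg (h x + (h x - hm'))]
    have h2 := Finset.sum_le_sum h1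
    rw [Finset.sum_const, nsmul_eq_mul, Finset.sum_add_distrib, ← Finset.mul_sum,
      ← Finset.mul_sum] at h2
    have h3 : ∑ x ∈ Z, (h x - hm') ^ 2 ≤ ∑ u ∈ cu d L, (H u - hm') ^ 2 := by
      rw [hH, ← sum_cu a hk (fun x => (h x - hm') ^ 2), ← Finset.sum_filter]
      refine Finset.sum_le_sum_of_subset_of_nonneg (fun x hx => ?_) fun x _ _ => sq_nonneg _
      rw [Finset.mem_filter]
      exact ⟨Finset.mem_univ _, (hZ x hx).1⟩
    rw [mul_comm]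
    refine h2.trans ?_
    have h4 := h3.trans pz
    linarith
  set c' : ℝ := 2 / (m * Z.card) + 8 * CS d * 4 ^ k / (b0 * Z.card) with hc'
  have hc'0 : 0 < c' := by positivity
  have w3b : hm' ^ 2 ≤ c' * (P + b0 / 2 * g) := by
    have h1 : hm' ^ 2 ≤ (2 / m * P + 4 * CS d * 4 ^ k * g) / Z.card := by
      rw [le_div_iff₀ hZ0]; exact w3a
    refine h1.trans ?_
    have h2 : c' * (P + b0 / 2 * g) - (2 / m * P + 4 * CS d * 4 ^ k * g) / Z.card =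
        8 * CS d * 4 ^ k / (b0 * Z.card) * P + 2 / (m * Z.card) * (b0 / 2 * g) := by
      rw [hc']
      field_simp
      ring
    have h3 : 0 ≤ 8 * CS d * 4 ^ k / (b0 * Z.card) * P + 2 / (m * Z.card) * (b0 / 2 * g) := by
      positivity
    linarith
  have w3 : 2 * (hm' * ∑ x, φ x) ≤ P + b0 / 2 * g + c' * (∑ x, |φ x|) ^ 2 := by
    have h1 : 2 * (hm' * ∑ x, φ x) ≤ hm' ^ 2 / c' + c' * (∑ x, φ x) ^ 2 := by
      have h2 : 0 ≤ (hm' - c' * ∑ x, φ x) ^ 2 / c' := by positivity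
      have h3 : (hm' - c' * ∑ x, φ x) ^ 2 / c' =
          hm' ^ 2 / c' - 2 * (hm' * ∑ x, φ x) + c' * (∑ x, φ x) ^ 2 := by
        field_simp
        ring
      linarith
    have h2 : hm' ^ 2 / c' ≤ P + b0 / 2 * g := by
      rw [div_le_iff₀ hc'0, mul_comm]
      exact w3b
    have h3 : (∑ x, φ x) ^ 2 ≤ (∑ x, |φ x|) ^ 2 := by
      rw [← sq_abs]
      exact pow_le_pow_left₀ (abs_nonneg _) (Finset.abs_sum_le_sum_abs _ _) 2
    have h4 := mul_le_mul_of_nonneg_left h3 hc'0.le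
    linarith
  -- the form
  have hmor : ∑ x ∈ B2, al x * (f x - h x) ^ 2 + P + b0 * g ≤ Q f := by
    refine le_trans ?_ hh
    unfold mor
    refine add_le_add ?_ ?_
    · have h1 : P = ∑ x ∈ Z, al x * (f x - h x) ^ 2 := by
        refine Finset.sum_congr rfl fun x hx => ?_
        rw [hf x (hZ x hx).2.1]
        ring
      have hdis : Disjoint B2 Z := by
        rw [Finset.disjoint_left]
        intro x hx hx'
        exact (hZ x hx').2.1 (hB2 hx)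
      rw [h1, ← Finset.sum_union hdis]
      exact Finset.sum_le_sum_of_subset_of_nonneg (Finset.subset_univ _) fun x _ _ =>
        mul_nonneg (hal x) (sq_nonneg _)
    · have h1 := mul_le_mul_of_nonneg_left (gr_le a hk h) hb0.le
      refine h1.trans ?_
      unfold bon
      rw [Finset.mul_sum]
      refine Finset.sum_le_sum fun e _ => ?_
      rw [← mul_assoc]
      refine mul_le_mul_of_nonneg_right ?_ (sq_nonneg _)
      unfold cutE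
      split_ifs with h2
      · rw [mul_one]; exact hbe e h2.1 h2.2
      · rw [mul_zero]; exact hbe0 e
  have hc'le : c' ≤ 8 / (m * ((2 : ℝ) ^ k) ^ d) + 32 * CS d * 4 ^ k / (b0 * ((2 : ℝ) ^ k) ^ d) := by
    have h1 : 2 / (m * (Z.card : ℝ)) ≤ 8 / (m * ((2 : ℝ) ^ k) ^ d) := by
      rw [div_le_div_iff₀ (by positivity) (by positivity)]
      nlinarith
    have h2 : 8 * CS d * 4 ^ k / (b0 * (Z.card : ℝ)) ≤
        32 * CS d * 4 ^ k / (b0 * ((2 : ℝ) ^ k) ^ d) := by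
      rw [div_le_div_iff₀ (by positivity) (by positivity)]
      have h3 : 0 ≤ 8 * CS d * 4 ^ k * b0 := by positivity
      nlinarith [mul_le_mul_of_nonneg_left hZc h3]
    exact add_le_add h1 h2
  set Y1 : ℝ := ∑ x ∈ B2 \ O, |φ x| with hY1
  set Y2 : ℝ := ∑ x ∈ B2 ∩ O, |φ x| with hY2
  have hY : ∑ x, |φ x| = Y1 + Y2 := by
    rw [← Finset.sum_subset (Finset.subset_univ B2) (fun x _ hx => by rw [hφ x hx, abs_zero]),
      add_comm]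
    exact (Finset.sum_inter_add_sum_sdiff B2 O _).symm
  have hsq : (∑ x, |φ x|) ^ 2 ≤ 2 * Y1 ^ 2 + 2 * Y2 ^ 2 := by
    rw [hY]
    nlinarith [sq_nonneg (Y1 - Y2)]
  set c1 : ℝ := 8 / (m * ((2 : ℝ) ^ k) ^ d) + 32 * CS d * 4 ^ k / (b0 * ((2 : ℝ) ^ k) ^ d) with hc1
  have hfin : c' * (∑ x, |φ x|) ^ 2 ≤ c1 * (2 * Y1 ^ 2 + 2 * Y2 ^ 2) :=
    mul_le_mul hc'le hsq (sq_nonneg _) (hc'0.le.trans hc'le)
  have e5 : ∀ (j : ℕ) (Y : ℝ), S2 d k j b0 m * Y ^ 2 =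
      4 / b0 * (CS d * (((1 / 2 : ℝ) ^ (d - 2)) ^ j * Y ^ 2)) + c1 * (2 * Y ^ 2) := by
    intro j Y
    rw [hc1]
    unfold S2
    ring
  rw [e1, e5 J Y1, e5 J' Y2]
  have e6 : ∀ (j : ℕ) (S Y : ℝ), 4 / b0 * (CS d * (4 ^ j * S +
      ((1 / 2 : ℝ) ^ (d - 2)) ^ j * Y ^ 2)) = 4 * CS d * 4 ^ j / b0 * S +
      4 / b0 * (CS d * (((1 / 2 : ℝ) ^ (d - 2)) ^ j * Y ^ 2)) := by
    intro j S Y
    ring
  rw [e6, e6] at w2
  linarith

/-- MAJ, two classes, with one weight `p` -/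
theorem maj2' (hd : 3 ≤ d) (a : Tor d M) (k J J' : ℕ) (hk : 2 ^ k ≤ M) {Q : (Tor d M → ℝ) → ℝ}
    {al : Tor d M → ℝ} {be : Bd d M → ℝ} (hQ : LB sT tT Q al be) (hal : ∀ x, 0 ≤ al x)
    (hbe0 : ∀ e, 0 ≤ be e) {b0 m : ℝ} (hb0 : 0 < b0) (hm : 0 < m)
    (hbe : ∀ e, Box a (2 ^ k) (sT e) → Box a (2 ^ k) (tT e) → b0 ≤ be e)
    {B B2 Z O : Finset (Tor d M)} (hB : ∀ x ∈ B, Box a (2 ^ k) x) (hB2 : B2 ⊆ B)
    (hB2a : ∀ x ∈ B2, 0 < al x)
    (hZ : ∀ x ∈ Z, Box a (2 ^ k) x ∧ x ∉ B ∧ m ≤ al x)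
    (hZc : ((2 : ℝ) ^ k) ^ d ≤ 4 * Z.card) {p : Tor d M → ℝ} {s1 s3 : ℝ}
    (hp : ∀ x ∈ B2, x ∉ O → 1 / al x + 4 * CS d * 4 ^ J / b0 ≤ p x)
    (hp' : ∀ x ∈ B2, x ∈ O → 1 / al x + 4 * CS d * 4 ^ J' / b0 ≤ p x)
    (hs1 : S2 d k J b0 m ≤ s1) (hs3 : S2 d k J' b0 m ≤ s3)
    (f φ : Tor d M → ℝ)
    (hf : ∀ x, x ∉ B → f x = 0) (hφ : ∀ x, x ∉ B2 → φ x = 0) :
    2 * ∑ x, f x * φ x - ∑ x ∈ B2, p x * φ x ^ 2 - s1 * (∑ x ∈ B2 \ O, |φ x|) ^ 2 -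
      s3 * (∑ x ∈ B2 ∩ O, |φ x|) ^ 2 ≤ Q f := by
  have h1 := maj2 hd a k J J' hk hQ hal hbe0 hb0 hm hbe hB hB2 hB2a hZ hZc f φ hf hφ (O := O)
  have h2 : ∑ x ∈ B2, φ x ^ 2 / al x + 4 * CS d * 4 ^ J / b0 * ∑ x ∈ B2 \ O, φ x ^ 2 +
      4 * CS d * 4 ^ J' / b0 * ∑ x ∈ B2 ∩ O, φ x ^ 2 ≤ ∑ x ∈ B2, p x * φ x ^ 2 := by
    rw [← Finset.sum_inter_add_sum_sdiff B2 O (fun x => φ x ^ 2 / al x),
      ← Finset.sum_inter_add_sum_sdiff B2 O (fun x => p x * φ x ^ 2)]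
    have g1 : ∑ x ∈ B2 ∩ O, φ x ^ 2 / al x + 4 * CS d * 4 ^ J' / b0 * ∑ x ∈ B2 ∩ O, φ x ^ 2 ≤
        ∑ x ∈ B2 ∩ O, p x * φ x ^ 2 := by
      rw [Finset.mul_sum, ← Finset.sum_add_distrib]
      refine Finset.sum_le_sum fun x hx => ?_
      rw [Finset.mem_inter] at hx
      have := mul_le_mul_of_nonneg_right (hp' x hx.1 hx.2) (sq_nonneg (φ x))
      calc φ x ^ 2 / al x + 4 * CS d * 4 ^ J' / b0 * φ x ^ 2 =
          (1 / al x + 4 * CS d * 4 ^ J' / b0) * φ x ^ 2 := by ring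
        _ ≤ _ := this
    have g2 : ∑ x ∈ B2 \ O, φ x ^ 2 / al x + 4 * CS d * 4 ^ J / b0 * ∑ x ∈ B2 \ O, φ x ^ 2 ≤
        ∑ x ∈ B2 \ O, p x * φ x ^ 2 := by
      rw [Finset.mul_sum, ← Finset.sum_add_distrib]
      refine Finset.sum_le_sum fun x hx => ?_
      rw [Finset.mem_sdiff] at hx
      have := mul_le_mul_of_nonneg_right (hp x hx.1 hx.2) (sq_nonneg (φ x))
      calc φ x ^ 2 / al x + 4 * CS d * 4 ^ J / b0 * φ x ^ 2 =
          (1 / al x + 4 * CS d * 4 ^ J / b0) * φ x ^ 2 := by ring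
        _ ≤ _ := this
    linarith
  have h3 := mul_le_mul_of_nonneg_right hs1 (sq_nonneg (∑ x ∈ B2 \ O, |φ x|))
  have h4 := mul_le_mul_of_nonneg_right hs3 (sq_nonneg (∑ x ∈ B2 ∩ O, |φ x|))
  linarith

end Pool.Agent.MAJ
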